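import Pool.Agent.H93.GT.Targets
import Pool.Agent.H93.ET.PTG

/-!
# The dichotomy for the synthesis property, module GPB: the functional of the pipes
-/

set_option autoImplicit false

namespace Pool.Agent.H86.GT

open MeasureTheory AddCircle Finset Pool.Agent.H87.Synth Pool.Agent.H85.SC Pool.Agent.H93.GT
open Pool.Agent.H93.ET (sg jj iE iA T_KKL T_CUT T_BRK T_SER T_CRI regroup sg_mul_self)

section

variable {d : ℕ → ℝ} (P : Pos d)

/-- the weights of the pipe `(n, i)` -/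
noncomputable def cB (n i : ℕ) (x : ℤ × ℤ × Bool) : ℂ :=
  (1 - 2 * (x.2.1 : ℂ)) * (sg x.2.2 : ℂ) * (P.g n i x.1 : ℂ)

theorem mem_IX {n i : ℕ} {x : ℤ × ℤ × Bool} (hv : Valid n i) (h1 : i ≠ 1)
    (h : P.g n i x.1 ≠ 0) (hi : x.2.1 = 0 ∨ x.2.1 = 1) : x ∈ P.IX n i := by
  obtain ⟨-, h2⟩ := P.gsupp n i x.1 hv h1 h
  unfold Pos.IX
  rw [Finset.mem_product, Finset.mem_product, Finset.mem_filter, Finset.mem_Ioo]
  refine ⟨⟨?_, h⟩, ?_, Finset.mem_univ _⟩
  · have := abs_lt.1 h2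
    constructor <;> linarith [this.1, this.2]
  · simpa using hi

theorem IX_i {n i : ℕ} {x : ℤ × ℤ × Bool} (h : x ∈ P.IX n i) : x.2.1 = 0 ∨ x.2.1 = 1 := by
  unfold Pos.IX at h
  rw [Finset.mem_product, Finset.mem_product] at h
  simpa using h.2.1

theorem IX_g {n i : ℕ} {x : ℤ × ℤ × Bool} (h : x ∈ P.IX n i) : P.g n i x.1 ≠ 0 := by
  unfold Pos.IX at h
  rw [Finset.mem_product, Finset.mem_filter] at h
  exact h.1.2

theorem sum_IX (n i : ℕ) (F : ℤ × ℤ × Bool → ℂ) (hF : ∀ x, P.g n i x.1 = 0 → F x = 0) :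
    ∑ x ∈ P.IX n i, F x = ∑ t ∈ Ioo (-(2 * (P.b n i (P.N n i) : ℤ)))
      (2 * (P.b n i (P.N n i) : ℤ)), ((F (t, 0, true) + F (t, 0, false)) +
        (F (t, 1, true) + F (t, 1, false))) := by
  unfold Pos.IX
  rw [Finset.sum_product, Finset.sum_filter]
  refine Finset.sum_congr rfl fun t _ => ?_
  split_ifs with hg
  · rw [Finset.sum_product, Finset.sum_pair (by norm_num), Fintype.sum_bool, Fintype.sum_bool]
  · have hg' : P.g n i t = 0 := not_not.1 hg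
    rw [hF _ hg', hF _ hg', hF _ hg', hF _ hg']
    norm_num

theorem pp_eq (n i : ℕ) (t κ : ℤ) (s : Bool) :
    pp n i t κ s = (cc n + lc i * 4 ^ Nat.size n + (Mo n : ℤ) * (2 * rho i)) +
      (Mo n : ℤ) * (12 * t + 6 * κ + jj s) := by
  unfold pp
  ring

theorem norm_B (n i : ℕ) (hv : Valid n i) (h1 : i ≠ 1) (w : ℂ) (hw : ‖w‖ = 1) :
    ‖∑ x ∈ P.IX n i, cB P n i x * w ^ pp n i x.1 x.2.1 x.2.2‖ ≤ 4 * (1 / 2) ^ slot n i := by
  have hw0 : w ≠ 0 := by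
    rintro rfl
    simp at hw
  obtain ⟨u, hu⟩ : ∃ u : ℂ, u = w ^ (Mo n : ℤ) := ⟨_, rfl⟩
  obtain ⟨e0, he0⟩ : ∃ e0 : ℤ, e0 = cc n + lc i * 4 ^ Nat.size n + (Mo n : ℤ) * (2 * rho i) :=
    ⟨_, rfl⟩
  have hun : ‖u‖ = 1 := by rw [hu, norm_zpow, hw, one_zpow]
  have hu0 : u ≠ 0 := by
    rintro rfl
    simp at hun
  have e1 : ∑ x ∈ P.IX n i, cB P n i x * w ^ pp n i x.1 x.2.1 x.2.2 =
      (∑ t ∈ Ioo (-(2 * (P.b n i (P.N n i) : ℤ))) (2 * (P.b n i (P.N n i) : ℤ)),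
        (P.g n i t : ℂ) * (u ^ 12) ^ t) * (w ^ e0 * ((1 - u ^ 6) * (1 - u))) := by
    rw [sum_IX P n i _ (fun x hx => by simp [cB, hx]), Finset.sum_mul]
    refine Finset.sum_congr rfl fun t _ => ?_
    have hp : ∀ (κ : ℤ) (s : Bool), w ^ pp n i t κ s = w ^ e0 * u ^ (12 * t + 6 * κ + jj s) := by
      intro κ s
      rw [pp_eq, ← he0, zpow_add₀ hw0, zpow_mul, ← hu]
    have h12 : (u ^ 12) ^ t = u ^ (12 * t) := by
      rw [zpow_mul]
      norm_cast
    have a1 : u ^ (12 * t + 6 * 0 + jj true) = u ^ (12 * t) := by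
      congr 1
      simp [jj]
    have a2 : u ^ (12 * t + 6 * 0 + jj false) = u ^ (12 * t) * u := by
      rw [← zpow_add_one₀ hu0]
      congr 1
      simp [jj]
    have a3 : u ^ (12 * t + 6 * 1 + jj true) = u ^ (12 * t) * u ^ 6 := by
      have : u ^ 6 = u ^ (6 : ℤ) := by norm_cast
      rw [this, ← zpow_add₀ hu0]
      congr 1
      simp [jj]
    have a4 : u ^ (12 * t + 6 * 1 + jj false) = u ^ (12 * t) * u ^ 6 * u := by
      have : u ^ 6 = u ^ (6 : ℤ) := by norm_cast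
      rw [this, ← zpow_add₀ hu0, ← zpow_add_one₀ hu0]
      congr 1
    simp only [cB, hp]
    rw [h12, a1, a2, a3, a4]
    simp only [sg, if_true, Bool.false_eq_true, if_false]
    push_cast
    ring
  rw [e1, norm_mul, norm_mul, norm_mul, norm_zpow, hw, one_zpow, one_mul]
  have b1 := P.gnorm n i (u ^ 12) hv h1 (by rw [norm_pow, hun, one_pow])
  have b2 : ‖1 - u ^ 6‖ ≤ 2 := by
    refine (norm_sub_le _ _).trans ?_
    rw [norm_one, norm_pow, hun]; norm_num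
  have b3 : ‖1 - u‖ ≤ 2 := by
    refine (norm_sub_le _ _).trans ?_
    rw [norm_one, hun]; norm_num
  calc _ ≤ (1 / 2 : ℝ) ^ slot n i * (2 * 2) :=
        mul_le_mul b1 (mul_le_mul b2 b3 (norm_nonneg _) (by norm_num)) (by positivity)
          (by positivity)
    _ = 4 * (1 / 2) ^ slot n i := by ring

open Classical in
/-- the pipes which end at the slot `r` -/
noncomputable def PR (S : Set ℕ) (r : ℕ) : Finset (ℕ × ℕ) :=
  (range (r + 1) ×ˢ range (r + 1)).filter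
    (fun p => p.1 ∈ S ∧ Valid p.1 p.2 ∧ p.2 ≠ 1 ∧ slot p.1 p.2 = r)

theorem mem_PR (S : Set ℕ) (r : ℕ) (p : ℕ × ℕ) :
    p ∈ PR S r ↔ p.1 ∈ S ∧ Valid p.1 p.2 ∧ p.2 ≠ 1 ∧ slot p.1 p.2 = r := by
  classical
  unfold PR
  rw [Finset.mem_filter, Finset.mem_product, Finset.mem_range, Finset.mem_range]
  constructor
  · exact fun h => h.2
  · intro h
    refine ⟨⟨?_, ?_⟩, h⟩
    · have := h.2.2.2
      unfold slot at this
      omega
    · have := h.2.2.2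
      unfold slot at this
      nlinarith [sq_nonneg (p.2 : ℤ), Nat.le_self_pow (two_ne_zero) p.2]

theorem PR_cases (h3 : T_SLT) (S : Set ℕ) (r : ℕ) : PR S r = ∅ ∨ ∃ p, PR S r = {p} := by
  rcases Finset.eq_empty_or_nonempty (PR S r) with h | ⟨p, hp⟩
  · exact Or.inl h
  · refine Or.inr ⟨p, Finset.eq_singleton_iff_unique_mem.2 ⟨hp, fun q hq => ?_⟩⟩
    rw [mem_PR] at hp hq
    obtain ⟨e1, e2⟩ := h3.1 q.1 q.2 p.1 p.2 hq.2.1 hp.2.1 (hq.2.2.2.trans hp.2.2.2.symm)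
    exact Prod.ext e1 e2

/-- index set of the points of the pipes which end at the slot `r` -/
noncomputable def IR (S : Set ℕ) (r : ℕ) : Finset (Σ _ : ℕ × ℕ, ℤ × ℤ × Bool) :=
  (PR S r).sigma fun p => P.IX p.1 p.2

/-- the functional of the pipes -/
theorem exB (h1 : T_SER) (h3 : T_SLT) (S : Set ℕ) : ∃ Λ : L1 →L[ℂ] ℂ, ∀ f : L1,
    HasSum (fun r => ∑ y ∈ IR P S r, cB P y.1.1 y.1.2 y.2 *
      coeff f (pp y.1.1 y.1.2 y.2.1 y.2.2.1 y.2.2.2)) (Λ f) := by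
  classical
  obtain ⟨Λ, hΛ⟩ := h1 (fun r => (IR P S r).image fun y => pp y.1.1 y.1.2 y.2.1 y.2.2.1 y.2.2.2)
    (fun r n => ∑ y ∈ (IR P S r).filter (fun y => pp y.1.1 y.1.2 y.2.1 y.2.2.1 y.2.2.2 = n),
      cB P y.1.1 y.1.2 y.2)
    (fun r => 4 * (1 / 2) ^ r)
    ((summable_geometric_of_lt_one (by norm_num) (by norm_num)).mul_left 4)
    (fun r w hw => by
      rw [regroup (IR P S r) (fun y => pp y.1.1 y.1.2 y.2.1 y.2.2.1 y.2.2.2)
        (fun y => cB P y.1.1 y.1.2 y.2) (fun n => w ^ n)]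
      unfold IR
      rw [Finset.sum_sigma]
      rcases PR_cases h3 S r with h | ⟨p, h⟩
      · rw [h, Finset.sum_empty, norm_zero]
        positivity
      · have hp : p ∈ PR S r := by rw [h]; exact Finset.mem_singleton_self p
        rw [mem_PR] at hp
        rw [h, Finset.sum_singleton]
        have := norm_B P p.1 p.2 hp.2.1 hp.2.2.1 w hw
        rw [hp.2.2.2] at this
        exact this)
  refine ⟨Λ, fun f => ?_⟩
  have := hΛ f
  simpa only [regroup (IR P S _) (fun y => pp y.1.1 y.1.2 y.2.1 y.2.2.1 y.2.2.2)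
    (fun y => cB P y.1.1 y.1.2 y.2) (fun n => coeff f n)] using this

end

theorem gpb (h1 : T_SER) (h2 : T_GUQ) (h3 : T_SLT) (_h4 : T_LNS) : T_GPB := by
  classical
  intro d P S
  obtain ⟨huniq, -, -, -⟩ := h2 d P
  obtain ⟨Λ, hΛ⟩ := exB P h1 h3 S
  refine ⟨Λ, ?_, ?_, ?_⟩
  · intro n i t κ s hn hv hi hg hκ
    refine (hΛ _).unique ?_
    have key : ∀ r y, y ∈ IR P S r → ¬ (r = slot n i ∧ y = ⟨(n, i), (t, κ, s)⟩) →
        cB P y.1.1 y.1.2 y.2 * coeff (ex (pp n i t κ s))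
          (pp y.1.1 y.1.2 y.2.1 y.2.2.1 y.2.2.2) = 0 := by
      intro r y hy hne
      unfold IR at hy
      rw [Finset.mem_sigma, mem_PR] at hy
      obtain ⟨⟨-, hv', hi', hr⟩, hx⟩ := hy
      rw [coeff_ex, if_neg, mul_zero]
      intro he
      obtain ⟨e1, e2, e3, e4, e5⟩ := huniq _ _ _ _ _ _ _ _ _ _ hv hi hg hκ hv' hi'
        (IX_g P hx) (IX_i P hx) he
      obtain ⟨⟨n', i'⟩, ⟨t', κ', s'⟩⟩ := y
      simp only at e1 e2 e3 e4 e5 hr
      subst e1 e2 e3 e4 e5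
      exact hne ⟨hr.symm, rfl⟩
    have e1 := hasSum_single (f := fun r => ∑ y ∈ IR P S r, cB P y.1.1 y.1.2 y.2 *
      coeff (ex (pp n i t κ s)) (pp y.1.1 y.1.2 y.2.1 y.2.2.1 y.2.2.2)) (slot n i)
        (fun r hr => Finset.sum_eq_zero fun y hy => key r y hy fun h => hr h.1)
    have e2 : ∑ y ∈ IR P S (slot n i), cB P y.1.1 y.1.2 y.2 *
        coeff (ex (pp n i t κ s)) (pp y.1.1 y.1.2 y.2.1 y.2.2.1 y.2.2.2) =
        cB P n i (t, κ, s) := by
      rw [Finset.sum_eq_single ⟨(n, i), (t, κ, s)⟩]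
      · rw [coeff_ex, if_pos rfl, mul_one]
      · intro y hy hne
        exact key _ y hy fun h => hne h.2
      · intro h
        refine absurd ?_ h
        unfold IR
        rw [Finset.mem_sigma, mem_PR]
        exact ⟨⟨hn, hv, hi, rfl⟩, mem_IX P hv hi hg hκ⟩
    rw [show (1 - 2 * (κ : ℂ)) * (sg s : ℂ) * (P.g n i t : ℂ) = cB P n i (t, κ, s) from rfl, ← e2]
    exact e1
  · intro z hz
    refine (hΛ _).unique ?_
    have : (fun r => ∑ y ∈ IR P S r, cB P y.1.1 y.1.2 y.2 *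
        coeff (ex z) (pp y.1.1 y.1.2 y.2.1 y.2.2.1 y.2.2.2)) = fun _ => 0 := by
      funext r
      refine Finset.sum_eq_zero fun y hy => ?_
      unfold IR at hy
      rw [Finset.mem_sigma, mem_PR] at hy
      obtain ⟨⟨hn', hv', hi', -⟩, hx⟩ := hy
      rw [coeff_ex, if_neg (hz _ _ _ _ _ hn' hv' hi' (IX_g P hx) (IX_i P hx)), mul_zero]
    rw [this]
    exact hasSum_zero
  · rintro v a f ⟨-, hf⟩
    refine (hΛ _).unique ?_
    have : (fun r => ∑ y ∈ IR P S r, cB P y.1.1 y.1.2 y.2 *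
        coeff f (pp y.1.1 y.1.2 y.2.1 y.2.2.1 y.2.2.2)) = fun _ => 0 := by
      funext r
      unfold IR
      rw [Finset.sum_sigma]
      refine Finset.sum_eq_zero fun p hp => ?_
      rw [mem_PR] at hp
      obtain ⟨-, hv, hi, -⟩ := hp
      have hx : ∀ x ∈ P.IX p.1 p.2, cB P p.1 p.2 x * coeff f (pp p.1 p.2 x.1 x.2.1 x.2.2) =
          (1 - 2 * (x.2.1 : ℂ)) * (P.g p.1 p.2 x.1 : ℂ) * qv v a p.1 p.2 := by
        intro x hx
        rw [hf _ _ _ _ _ hv hi (IX_g P hx) (IX_i P hx)]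
        unfold cB
        have := sg_mul_self x.2.2
        linear_combination ((1 - 2 * (x.2.1 : ℂ)) * (P.g p.1 p.2 x.1 : ℂ) *
          qv v a p.1 p.2) * this
      refine (Finset.sum_congr rfl hx).trans ?_
      rw [sum_IX P p.1 p.2 _ (fun x hx => by simp [hx])]
      refine Finset.sum_eq_zero fun t _ => ?_
      push_cast
      ring
    rw [this]
    exact hasSum_zero

end Pool.Agent.H86.GT
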